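import Mathlib

set_option autoImplicit false

namespace Pool.Agent.Results.MP_35e3b8_an.Counterexample

open NNReal CircleDeg1Lift

/-- The action on functions: (g f)(x) = f(g⁻¹ x) - f(g⁻¹ o), o the base point. -/
def act {G M : Type} [Group G] [MulAction G M] (o : M) (g : G) (f : M → ℝ) : M → ℝ :=
  fun x => f (g⁻¹ • x) - f (g⁻¹ • o)

/-- The group of lifts of orientation preserving circle bijections. -/
abbrev G0 := CircleDeg1Liftˣ

/-- The quasimorphism g ↦ g(0). -/
def phi (g : G0) : ℝ := (g : CircleDeg1Lift) 0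

lemma phi_one : phi 1 = 0 := rfl

lemma phi_mul (g h : G0) : |phi (g * h) - phi g - phi h| ≤ 1 := by
  have := dist_map_map_zero_lt (g : CircleDeg1Lift) h
  rw [Real.dist_eq, abs_lt] at this
  have h2 : phi (g * h) = (g : CircleDeg1Lift) ((h : CircleDeg1Lift) 0) := rfl
  rw [h2, abs_le]; unfold phi; constructor <;> linarith [this.1, this.2]

open Classical in
/-- The length function. -/
noncomputable def rho (g : G0) : ℝ := if g = 1 then 0 else max |phi g| |phi g⁻¹| + 40

lemma rho_one : rho 1 = 0 := if_pos rfl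

lemma rho_ne {g : G0} (h : g ≠ 1) : rho g = max |phi g| |phi g⁻¹| + 40 := if_neg h

lemma rho_nonneg (g : G0) : 0 ≤ rho g := by
  unfold rho; split_ifs
  · exact le_rfl
  · positivity

lemma rho_inv (g : G0) : rho g⁻¹ = rho g := by
  by_cases hg : g = 1
  · rw [hg, inv_one]
  · rw [rho_ne hg, rho_ne (inv_ne_one.2 hg), inv_inv, max_comm]

lemma rho_mul (g h : G0) : rho (g * h) ≤ rho g + rho h := by
  by_cases hg : g = 1
  · rw [hg, one_mul, rho_one, zero_add]
  by_cases hh : h = 1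
  · rw [hh, mul_one, rho_one, add_zero]
  by_cases hgh : g * h = 1
  · have := rho_nonneg g
    have := rho_nonneg h
    rw [hgh, rho_one]; linarith
  rw [rho_ne hg, rho_ne hh, rho_ne hgh, mul_inv_rev]
  have a := abs_le.1 (phi_mul g h)
  have b := abs_le.1 (phi_mul h⁻¹ g⁻¹)
  have c1 := abs_le.1 (le_max_left |phi g| |phi g⁻¹|)
  have c2 := abs_le.1 (le_max_right |phi g| |phi g⁻¹|)
  have c3 := abs_le.1 (le_max_left |phi h| |phi h⁻¹|)
  have c4 := abs_le.1 (le_max_right |phi h| |phi h⁻¹|)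
  have : max |phi (g * h)| |phi (h⁻¹ * g⁻¹)|
      ≤ max |phi g| |phi g⁻¹| + max |phi h| |phi h⁻¹| + 1 := by
    apply max_le <;> rw [abs_le] <;> constructor <;> linarith [a.1, a.2, b.1, b.2, c1.1, c1.2,
      c2.1, c2.2, c3.1, c3.2, c4.1, c4.2]
  linarith

noncomputable instance : MetricSpace G0 where
  dist x y := rho (x⁻¹ * y)
  dist_self x := by rw [inv_mul_cancel, rho_one]
  dist_comm x y := by rw [← rho_inv]; simp
  dist_triangle x y z := by
    have := rho_mul (x⁻¹ * y) (y⁻¹ * z)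
    have h2 : (x⁻¹ * y) * (y⁻¹ * z) = x⁻¹ * z := by group
    exact h2 ▸ this
  eq_of_dist_eq_zero := by
    intro x y h
    by_contra hxy
    have h1 : x⁻¹ * y ≠ 1 := fun h => hxy (inv_mul_eq_one.1 h)
    have h2 : rho (x⁻¹ * y) = max |phi (x⁻¹ * y)| |phi (x⁻¹ * y)⁻¹| + 40 := if_neg h1
    have h3 : rho (x⁻¹ * y) = 0 := h
    have : 0 ≤ max |phi (x⁻¹ * y)| |phi (x⁻¹ * y)⁻¹| := by positivity
    linarith

lemma dist_ge (x y : G0) (h : x ≠ y) : |phi (x⁻¹ * y)| + 40 ≤ dist x y := by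
  have h1 : x⁻¹ * y ≠ 1 := fun h' => h (inv_mul_eq_one.1 h')
  have h2 : dist x y = max |phi (x⁻¹ * y)| |phi (x⁻¹ * y)⁻¹| + 40 := if_neg h1
  rw [h2]; linarith [le_max_left |phi (x⁻¹ * y)| |phi (x⁻¹ * y)⁻¹|]

lemma dist_one_le (g : G0) : dist 1 g ≤ |phi g| + 41 := by
  have h2 : dist 1 g = rho (1⁻¹ * g) := rfl
  rw [h2, inv_one, one_mul]
  unfold rho
  split_ifs
  · positivity
  · have a := abs_le.1 (phi_mul g g⁻¹)
    rw [mul_inv_cancel, phi_one] at a
    have : |phi g⁻¹| ≤ |phi g| + 1 := by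
      rw [abs_le]; constructor <;> linarith [a.1, a.2, le_abs_self (phi g), neg_abs_le (phi g)]
    have : max |phi g| |phi g⁻¹| ≤ |phi g| + 1 := max_le (by linarith) this
    linarith

instance : IsIsometricSMul G0 G0 := ⟨fun g => Isometry.of_dist_eq (fun x y => by
  change rho ((g * x)⁻¹ * (g * y)) = rho (x⁻¹ * y)
  congr 1; group)⟩

/-- A piecewise linear lift with 0 ↦ 0 and 1/3 ↦ 2/3. -/
noncomputable def h0 : CircleDeg1Lift where
  toFun x := ⌊x⌋ + min (2 * Int.fract x) ((Int.fract x + 1) / 2)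
  monotone' := by
    intro x y hxy
    have a1 := Int.fract_nonneg x
    have a2 := Int.fract_lt_one x
    have b1 := Int.fract_nonneg y
    rcases (Int.floor_mono hxy).lt_or_eq with h | h
    · have h1 : ((⌊x⌋ : ℤ) : ℝ) + 1 ≤ ⌊y⌋ := by exact_mod_cast h
      have h2 := min_le_right (2 * Int.fract x) ((Int.fract x + 1) / 2)
      have h3 : 0 ≤ min (2 * Int.fract y) ((Int.fract y + 1) / 2) := by positivity
      simp only; linarith
    · have h1 : Int.fract x ≤ Int.fract y := by
        simp only [Int.fract]; rw [h]; linarith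
      simp only; rw [h]; gcongr
  map_add_one' x := by simp; ring

lemma h0_apply (x : ℝ) : h0 x = ⌊x⌋ + min (2 * Int.fract x) ((Int.fract x + 1) / 2) := rfl

lemma h0_unit : IsUnit h0 := by
  rw [isUnit_iff_bijective]
  constructor
  · apply StrictMono.injective
    intro x y hxy
    have a1 := Int.fract_nonneg x
    have a2 := Int.fract_lt_one x
    have b1 := Int.fract_nonneg y
    rw [h0_apply, h0_apply]
    rcases (Int.floor_mono hxy.le).lt_or_eq with h | h
    · have h1 : ((⌊x⌋ : ℤ) : ℝ) + 1 ≤ ⌊y⌋ := by exact_mod_cast h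
      have h2 := min_le_right (2 * Int.fract x) ((Int.fract x + 1) / 2)
      have h3 : 0 ≤ min (2 * Int.fract y) ((Int.fract y + 1) / 2) := by positivity
      linarith
    · have h1 : Int.fract x < Int.fract y := by
        simp only [Int.fract]; rw [h]; linarith
      rw [h]
      have : min (2 * Int.fract x) ((Int.fract x + 1) / 2)
          < min (2 * Int.fract y) ((Int.fract y + 1) / 2) := min_lt_min (by linarith) (by linarith)
      linarith
  · intro y
    have b1 := Int.fract_nonneg y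
    have b2 := Int.fract_lt_one y
    set s := max (Int.fract y / 2) (2 * Int.fract y - 1) with hs
    have s0 : 0 ≤ s := le_max_of_le_left (by positivity)
    have s1 : s < 1 := max_lt (by linarith) (by linarith)
    refine ⟨⌊y⌋ + s, ?_⟩
    rw [h0_apply, Int.floor_intCast_add, Int.fract_intCast_add, Int.fract_eq_self.2 ⟨s0, s1⟩,
      Int.floor_eq_zero_iff.2 ⟨s0, s1⟩]
    have : min (2 * s) ((s + 1) / 2) = Int.fract y := by
      rcases le_total (Int.fract y / 2) (2 * Int.fract y - 1) with h | h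
      · rw [hs, max_eq_right h, min_eq_right (by linarith)]; ring
      · rw [hs, max_eq_left h, min_eq_left (by linarith)]; ring
    rw [this]; simp

lemma exists_w : ∃ w : G0, (∀ n : ℕ, phi (w ^ n) = n) ∧
    ∀ H : G0 → ℝ, (∀ g h, H (g * h) = H g + H h) → H w = 0 := by
  obtain ⟨h, hh⟩ := h0_unit
  let a : G0 := translate (Multiplicative.ofAdd (1 / 3 : ℝ))
  have ha : ∀ x : ℝ, (a : CircleDeg1Lift) x = 1 / 3 + x := fun x => rfl
  have ha' : ∀ x : ℝ, ((a⁻¹ : G0) : CircleDeg1Lift) x = -(1 / 3) + x := fun x => rfl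
  have h00 : (h : CircleDeg1Lift) 0 = 0 := by rw [hh, h0_apply]; simp
  have h01 : ((h⁻¹ : G0) : CircleDeg1Lift) 0 = 0 := by
    have := units_inv_apply_apply h 0
    rwa [h00] at this
  have h13 : (h : CircleDeg1Lift) (1 / 3) = 2 / 3 := by
    rw [hh, h0_apply, Int.fract_eq_self.2 ⟨by norm_num, by norm_num⟩,
      Int.floor_eq_zero_iff.2 ⟨by norm_num, by norm_num⟩]
    norm_num
  let c : G0 := a * h * a * h⁻¹
  have hc : (c : CircleDeg1Lift) 0 = 1 := by
    change (a : CircleDeg1Lift) ((h : CircleDeg1Lift) ((a : CircleDeg1Lift)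
      (((h⁻¹ : G0) : CircleDeg1Lift) 0))) = 1
    rw [h01, ha, ha, add_zero, h13]; norm_num
  have hc' : ∀ n : ℤ, (c : CircleDeg1Lift) n = n + 1 := by
    intro n
    have := map_add_int (c : CircleDeg1Lift) 0 n
    rw [zero_add, hc] at this; rw [this]; ring
  let w : G0 := c * c * c * a⁻¹ * a⁻¹ * a⁻¹ * a⁻¹ * a⁻¹ * a⁻¹
  have hw : ∀ n : ℤ, (w : CircleDeg1Lift) n = n + 1 := by
    intro n
    change (c : CircleDeg1Lift) ((c : CircleDeg1Lift) ((c : CircleDeg1Lift)
      (((a⁻¹ : G0) : CircleDeg1Lift) (((a⁻¹ : G0) : CircleDeg1Lift)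
      (((a⁻¹ : G0) : CircleDeg1Lift) (((a⁻¹ : G0) : CircleDeg1Lift)
      (((a⁻¹ : G0) : CircleDeg1Lift) (((a⁻¹ : G0) : CircleDeg1Lift) n)))))))) = _
    simp only [ha']
    have e1 : -(1 / 3 : ℝ) + (-(1 / 3) + (-(1 / 3) + (-(1 / 3) + (-(1 / 3) + (-(1 / 3) + n)))))
        = ((n - 2 : ℤ) : ℝ) := by push_cast; ring
    have e2 : ((n - 2 : ℤ) : ℝ) + 1 = ((n - 1 : ℤ) : ℝ) := by push_cast; ring
    have e3 : ((n - 1 : ℤ) : ℝ) + 1 = n := by push_cast; ring
    rw [e1, hc', e2, hc', e3, hc']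
  refine ⟨w, fun n => ?_, fun H hH => ?_⟩
  · induction n with
    | zero => simp [phi]
    | succ n ih =>
      have : phi (w ^ (n + 1)) = (w : CircleDeg1Lift) (phi (w ^ n)) := by rw [pow_succ']; rfl
      rw [this, ih]
      exact_mod_cast hw n
  · have H1 : H 1 = 0 := by have := hH 1 1; rw [mul_one] at this; linarith
    have Hinv : ∀ g, H g⁻¹ = -H g := by
      intro g; have := hH g g⁻¹; rw [mul_inv_cancel, H1] at this; linarith
    simp only [w, c, hH, Hinv]; ring

theorem result :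
    ¬ ∀ (δ : ℝ≥0) (_ : 0 < δ) (M : Type) [MetricSpace M] (o : M) (G : Type) [Group G]
      [MulAction G M] [IsIsometricSMul G M] (f : M → ℝ),
      f o = 0 → IsLeast {K : ℝ≥0 | LipschitzWith K f} 1 →
      (∀ g : G, LipschitzWith (δ / 10) (act o g f - f)) →
      ∃ fb : M → ℝ, fb o = 0 ∧ (∃ K, LipschitzWith K fb) ∧ (∀ g : G, act o g fb = fb) ∧
        LipschitzWith δ (f - fb) := by
  intro H
  obtain ⟨w, hw, hw0⟩ := exists_w
  have big : ∀ (F : G0 → ℝ) (K : ℝ≥0), F 1 = 0 → (∀ n : ℕ, F (w ^ n) = n) → LipschitzWith K F →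
      1 ≤ K := by
    intro F K h1 hn hK
    by_contra hlt
    have hlt' : (K : ℝ) < 1 := by exact_mod_cast not_le.1 hlt
    obtain ⟨n, hn'⟩ := exists_nat_gt (41 * K / (1 - K) : ℝ)
    rw [div_lt_iff₀ (by linarith)] at hn'
    have a := hK.dist_le_mul 1 (w ^ n : G0)
    have b := dist_one_le (w ^ n : G0)
    rw [h1, hn n, Real.dist_eq, zero_sub, abs_neg, Nat.abs_cast] at a
    rw [hw n, Nat.abs_cast] at b
    have : (K : ℝ) * dist (1 : G0) (w ^ n : G0) ≤ K * (n + 41) := by gcongr
    nlinarith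
  obtain ⟨fb, h1, -, h2, h3⟩ := H (1 / 2) (by norm_num) G0 1 G0 phi phi_one
    ⟨LipschitzWith.of_dist_le_mul (fun x y => by
      by_cases hxy : x = y
      · simp [hxy]
      have a := dist_ge x y hxy
      have b := abs_le.1 (phi_mul x (x⁻¹ * y))
      have e : (x : G0) * (x⁻¹ * y) = y := mul_inv_cancel_left _ _
      rw [e] at b
      rw [Real.dist_eq, NNReal.coe_one, one_mul, abs_le]
      constructor <;> linarith [b.1, b.2, le_abs_self (phi (x⁻¹ * y)), neg_abs_le (phi (x⁻¹ * y))]),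
      fun K hK => big phi K phi_one hw hK⟩
    (fun g => LipschitzWith.of_dist_le_mul (fun x y => by
      by_cases hxy : x = y
      · simp [hxy]
      have a := dist_ge x y hxy
      have b := abs_le.1 (phi_mul g⁻¹ x)
      have c := abs_le.1 (phi_mul g⁻¹ y)
      have d := abs_nonneg (phi (x⁻¹ * y))
      rw [Real.dist_eq, abs_le]
      simp only [act, Pi.sub_apply, smul_eq_mul]
      push_cast
      constructor <;> linarith [b.1, b.2, c.1, c.2]))
  have hhom : ∀ g h : G0, fb (g * h) = fb g + fb h := by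
    intro g h
    have := congrFun (h2 g⁻¹) h
    simp only [act, inv_inv, smul_eq_mul, mul_one] at this
    linarith
  have hz : ∀ n : ℕ, fb (w ^ n : G0) = 0 := by
    intro n
    induction n with
    | zero => exact h1
    | succ n ih =>
      have := hhom (w ^ n : G0) w
      rw [ih, hw0 fb hhom] at this
      rw [pow_succ]
      simpa using this
  have := big (phi - fb) (1 / 2) (by simp [phi_one, h1]) (fun n => by
    simp only [Pi.sub_apply]; rw [hw n]; exact (congrArg (fun t => (n : ℝ) - t) (hz n)).trans (sub_zero _)) h3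
  have h9 : (1 : ℝ) ≤ 1 / 2 := by exact_mod_cast this
  norm_num at h9

end Pool.Agent.Results.MP_35e3b8_an.Counterexample
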